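import Mathlib
import Pool.Agent.Helper29_CF.Stmt

/-! Choice of the free block at the points of degree three. -/

namespace Pool.Agent.Helper29_CF.H36

open Finset

/-- the statement COLA, for nonempty `B` -/
def ColAStmt' : Prop :=
  ∀ {V B : Type} [Fintype V] [DecidableEq V] [Fintype B] [DecidableEq B] [Nonempty B]
    (s : B → Finset V) (F : Finset B) (N : Finset V),
    (∀ b ∈ F, (s b ∩ N.filter (fun x => deg s F x = 2 ∨ deg s F x = 3 ∨ deg s F x = 4)).card ≤ 2) →
    ∃ φ : V → B, (∀ x ∈ N, deg s F x = 3 → φ x ∈ F ∧ x ∈ s (φ x)) ∧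
      ∀ S ⊆ N.filter (fun x => deg s F x = 2 ∨ deg s F x = 3 ∨ deg s F x = 4),
        (∀ b ∈ F, Even (S.filter (fun x => x ∈ s b ∧ ¬ (deg s F x = 3 ∧ φ x = b))).card) →
        ∀ x ∈ S, deg s F x ≠ 3

section

variable {V B : Type} [DecidableEq V] [DecidableEq B]

/-- the incidence count at a point is even -/
theorem incid_even (s : B → Finset V) (F : Finset B) (φ : V → B) (y : V)
    (hy : deg s F y = 2 ∨ deg s F y = 3 ∨ deg s F y = 4)
    (hv : deg s F y = 3 → φ y ∈ F ∧ y ∈ s (φ y)) :
    Even (F.filter (fun b => y ∈ s b ∧ ¬ (deg s F y = 3 ∧ φ y = b))).card := by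
  by_cases h3 : deg s F y = 3
  · have : F.filter (fun b => y ∈ s b ∧ ¬ (deg s F y = 3 ∧ φ y = b))
        = (F.filter (fun b => y ∈ s b)).erase (φ y) := by
      ext b
      simp only [mem_filter, mem_erase, h3, true_and]
      constructor
      · rintro ⟨h1, h2, h4⟩
        exact ⟨fun h => h4 h.symm, h1, h2⟩
      · rintro ⟨h1, h2, h4⟩
        exact ⟨h2, h4, fun h => h1 h.symm⟩
    rw [this, card_erase_of_mem (by simpa using hv h3)]
    have h3' : (F.filter (fun b => y ∈ s b)).card = 3 := h3
    rw [h3']
    decide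
  · have : F.filter (fun b => y ∈ s b ∧ ¬ (deg s F y = 3 ∧ φ y = b))
        = (F.filter (fun b => y ∈ s b)) := by
      ext b
      simp [h3]
    rw [this]
    change Even (deg s F y)
    rcases hy with h | h | h
    · rw [h]; decide
    · exact absurd h h3
    · rw [h]; decide

omit [DecidableEq V] [DecidableEq B] in
/-- double counting of incidences -/
theorem incid_sum (F : Finset B) (U : Finset V) (P : B → V → Prop) [∀ b y, Decidable (P b y)] :
    ∑ b ∈ F, (U.filter (fun y => P b y)).card = ∑ y ∈ U, (F.filter (fun b => P b y)).card := by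
  simp only [card_filter]
  exact sum_comm

theorem cola_contra (s : B → Finset V) (F : Finset B) (D : Finset V) (φ : V → B)
    (hD : ∀ y ∈ D, deg s F y = 2 ∨ deg s F y = 3 ∨ deg s F y = 4)
    (hD2 : ∀ b ∈ F, (s b ∩ D).card ≤ 2)
    (hv : ∀ y ∈ D, deg s F y = 3 → φ y ∈ F ∧ y ∈ s (φ y))
    (S S' : Finset V) (hS : S ⊆ D) (hS' : S' ⊆ D)
    (hSe : ∀ b ∈ F, Even (S.filter (fun x => x ∈ s b ∧ ¬ (deg s F x = 3 ∧ φ x = b))).card)
    (x : V) (hx : x ∈ S) (hx' : x ∈ S') (hx3 : deg s F x = 3) (a : B) (haF : a ∈ F)
    (hxa : x ∈ s a) (hac : φ x ≠ a)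
    (hSe' : ∀ b ∈ F, Even (S'.filter
      (fun y => y ∈ s b ∧ ¬ (deg s F y = 3 ∧ Function.update φ x a y = b))).card) : False := by
  -- the predicate
  have hcF := (hv x (hS hx) hx3).1
  have hxc := (hv x (hS hx) hx3).2
  set P : B → V → Prop := fun b y => y ∈ s b ∧ ¬ (deg s F y = 3 ∧ φ y = b) with hP
  let _ : ∀ b y, Decidable (P b y) := fun b y =>
    inferInstanceAs (Decidable (y ∈ s b ∧ ¬ (deg s F y = 3 ∧ φ y = b)))
  -- counts of S'
  have hS1 : ∀ b ∈ F, b ≠ a → b ≠ φ x → Even (S'.filter (fun y => P b y)).card := by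
    intro b hb hba hbc
    have h0 := hSe' b hb
    have h1 : S'.filter (fun y => P b y) = S'.filter
        (fun y => y ∈ s b ∧ ¬ (deg s F y = 3 ∧ Function.update φ x a y = b)) := by
      ext y
      simp only [mem_filter, hP]
      by_cases hyx : y = x
      · subst hyx
        simp only [Function.update_self]
        simp [hx3, Ne.symm hba, Ne.symm hbc]
      · rw [Function.update_of_ne hyx]
    rw [h1]
    exact h0
  have hS2 : ¬ Even (S'.filter (fun y => P a y)).card := by
    intro he
    have h1 := hSe' a haF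
    have : S'.filter (fun y => P a y) = insert x (S'.filter
      (fun y => y ∈ s a ∧ ¬ (deg s F y = 3 ∧ Function.update φ x a y = a))) := by
      ext y
      simp only [mem_filter, mem_insert, hP]
      by_cases hyx : y = x
      · subst hyx
        simp [hx', hxa, hx3, hac]
      · rw [Function.update_of_ne hyx]
        simp [hyx]
    rw [this, card_insert_of_notMem] at he
    · rw [Nat.even_add_one] at he
      exact he h1
    · simp [hx3]
  -- the set U
  have hkey : ∑ b ∈ F, ((S \ S').filter (fun y => P b y)).card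
      = ∑ y ∈ S \ S', (F.filter (fun b => P b y)).card := incid_sum F (S \ S') P
  have hR : Even (∑ y ∈ S \ S', (F.filter (fun b => P b y)).card) := by
    apply Finset.even_sum
    intro y hy
    have hyD : y ∈ D := hS (mem_sdiff.1 hy).1
    exact incid_even s F φ y (hD y hyD) (hv y hyD)
  -- dichotomy
  have hdich : ∀ b ∈ F, (D.filter (fun y => P b y)).card ≤ 2 := by
    intro b hb
    refine le_trans (card_le_card ?_) (hD2 b hb)
    intro y hy
    simp only [mem_filter, hP] at hy
    exact mem_inter.2 ⟨hy.2.1, hy.1⟩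
  have hsplit : ∀ b, ((S \ S').filter (fun y => P b y)).card + (S ∩ S' |>.filter (fun y => P b y)).card
      = (S.filter (fun y => P b y)).card := by
    intro b
    rw [← card_union_of_disjoint, ← filter_union, sdiff_union_inter]
    exact disjoint_filter_filter (disjoint_sdiff_inter S S')
  have hfull : ∀ b ∈ F, (S.filter (fun y => P b y)).card = 2 →
      S.filter (fun y => P b y) = D.filter (fun y => P b y) := by
    intro b hb h2
    apply eq_of_subset_of_card_le (filter_subset_filter _ hS)
    rw [h2]
    exact hdich b hb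
  have hfull' : ∀ b ∈ F, (S.filter (fun y => P b y)).card = 2 →
      (S ∩ S').filter (fun y => P b y) = S'.filter (fun y => P b y) := by
    intro b hb h2
    ext y
    have := hfull b hb h2
    simp only [mem_filter, mem_inter]
    constructor
    · rintro ⟨⟨_, h⟩, h'⟩
      exact ⟨h, h'⟩
    · rintro ⟨h, h'⟩
      have : y ∈ S.filter (fun y => P b y) := by
        rw [this]
        exact mem_filter.2 ⟨hS' h, h'⟩
      exact ⟨⟨(mem_filter.1 this).1, h⟩, h'⟩
  have hcase : ∀ b ∈ F, (S.filter (fun y => P b y)).card = 0 ∨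
      (S.filter (fun y => P b y)).card = 2 := by
    intro b hb
    have h1 : Even (S.filter (fun y => P b y)).card := hSe b hb
    have h2 : (S.filter (fun y => P b y)).card ≤ 2 :=
      le_trans (card_le_card (filter_subset_filter _ hS)) (hdich b hb)
    rcases h1 with ⟨k, hk⟩
    omega
  have hoth : ∀ b ∈ F, b ≠ a → Even ((S \ S').filter (fun y => P b y)).card := by
    intro b hb hba
    rcases hcase b hb with h0 | h2
    · have := hsplit b
      have h00 : ((S \ S').filter (fun y => P b y)).card = 0 := by omega
      rw [h00]; exact Even.zero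
    · by_cases hbc : b = φ x
      · exfalso
        have h3 := hfull b hb h2
        have h4 : insert x (D.filter (fun y => P b y)) ⊆ s b ∩ D := by
          intro y hy
          rcases mem_insert.1 hy with h | h
          · subst h
            exact mem_inter.2 ⟨by rw [hbc]; exact hxc, hS hx⟩
          · simp only [mem_filter, hP] at h
            exact mem_inter.2 ⟨h.2.1, h.1⟩
        have h5 := card_le_card h4
        rw [card_insert_of_notMem, ← h3, h2] at h5
        · have := hD2 b hb
          omega
        · simp only [mem_filter, hP]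
          rintro ⟨_, _, h⟩
          exact h ⟨hx3, hbc.symm⟩
      · have h3 := hsplit b
        rw [hfull' b hb h2, h2] at h3
        have h4 := hS1 b hb hba hbc
        rcases h4 with ⟨k, hk⟩
        rw [hk] at h3
        exact ⟨1 - k, by omega⟩
  have ha2 : (S.filter (fun y => P a y)).card = 2 := by
    rcases hcase a haF with h | h
    · exfalso
      rw [card_eq_zero] at h
      have : x ∈ S.filter (fun y => P a y) := by
        simp only [mem_filter, hP]
        exact ⟨hx, hxa, fun h => hac h.2⟩
      rw [h] at this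
      exact absurd this (notMem_empty _)
    · exact h
  have haodd : ¬ Even ((S \ S').filter (fun y => P a y)).card := by
    intro he
    have h3 := hsplit a
    rw [hfull' a haF ha2, ha2] at h3
    apply hS2
    rcases he with ⟨k, hk⟩
    rw [hk] at h3
    exact ⟨1 - k, by omega⟩
  rw [← hkey, ← add_sum_erase F _ haF] at hR
  have hE : Even (∑ b ∈ F.erase a, ((S \ S').filter (fun y => P b y)).card) := by
    apply Finset.even_sum
    intro b hb
    exact hoth b (mem_of_mem_erase hb) (ne_of_mem_erase hb)
  rw [Nat.even_add] at hR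
  exact haodd (hR.2 hE)

end

theorem cola : ColAStmt' := by
  intro V B _ _ _ _ _ s F N h2
  classical
  set D := N.filter (fun x => deg s F x = 2 ∨ deg s F x = 3 ∨ deg s F x = 4) with hDdef
  let valid : (V → B) → Prop := fun φ => ∀ x ∈ N, deg s F x = 3 → φ x ∈ F ∧ x ∈ s (φ x)
  let Z : (V → B) → Finset (Finset V) := fun φ => D.powerset.filter
    (fun S => ∀ b ∈ F, Even (S.filter (fun x => x ∈ s b ∧ ¬ (deg s F x = 3 ∧ φ x = b))).card)
  have hex : ((univ : Finset (V → B)).filter valid).Nonempty := by
    have : ∀ x : V, ∃ b : B, deg s F x = 3 → b ∈ F ∧ x ∈ s b := by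
      intro x
      by_cases hx : deg s F x = 3
      · have : (F.filter (fun b => x ∈ s b)).Nonempty := by
          rw [← card_pos]
          unfold deg at hx
          omega
        obtain ⟨b, hb⟩ := this
        exact ⟨b, fun _ => by simpa using hb⟩
      · exact ⟨Classical.arbitrary B, fun h => absurd h hx⟩
    choose φ hφ using this
    refine ⟨φ, mem_filter.2 ⟨mem_univ _, ?_⟩⟩
    intro x _ hx
    exact hφ x hx
  obtain ⟨φ, hφ, hmin⟩ := exists_min_image _ (fun φ => (Z φ).card) hex
  have hval : valid φ := (mem_filter.1 hφ).2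
  refine ⟨φ, hval, ?_⟩
  intro S hS hSe x hx hx3
  -- another block at x
  have hxN : x ∈ N := (mem_filter.1 (hS hx)).1
  obtain ⟨hcF, hxc⟩ := hval x hxN hx3
  have hcard : ((F.filter (fun b => x ∈ s b)).erase (φ x)).Nonempty := by
    rw [← card_pos, card_erase_of_mem (by simp [hcF, hxc])]
    unfold deg at hx3
    omega
  obtain ⟨a, ha⟩ := hcard
  have hac : a ≠ φ x := ne_of_mem_erase ha
  have ha' := mem_filter.1 (mem_of_mem_erase ha)
  have hval' : valid (Function.update φ x a) := by
    intro y hy hy3
    by_cases hyx : y = x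
    · subst hyx
      rw [Function.update_self]
      exact ha'
    · rw [Function.update_of_ne hyx]
      exact hval y hy hy3
  have hlt : (Z (Function.update φ x a)).card < (Z φ).card := by
    apply card_lt_card
    have hno : ∀ S' ∈ Z (Function.update φ x a), x ∉ S' := by
      intro S' hS' hx'
      have h := mem_filter.1 hS'
      exact cola_contra s F D φ (fun y hy => (mem_filter.1 hy).2) h2
        (fun y hy => hval y (mem_filter.1 hy).1) S S' hS (mem_powerset.1 h.1) hSe x hx hx' hx3 a
        ha'.1 ha'.2 hac.symm h.2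
    rw [ssubset_iff_of_subset]
    · refine ⟨S, mem_filter.2 ⟨mem_powerset.2 hS, hSe⟩, fun h => hno S h hx⟩
    · intro S' hS'
      have h := mem_filter.1 hS'
      have hx' := hno S' hS'
      refine mem_filter.2 ⟨h.1, fun b hb => ?_⟩
      have h3 := h.2 b hb
      have h4 : S'.filter (fun y => y ∈ s b ∧ ¬ (deg s F y = 3 ∧ φ y = b)) = S'.filter
          (fun y => y ∈ s b ∧ ¬ (deg s F y = 3 ∧ Function.update φ x a y = b)) := by
        apply filter_congr
        intro y hy
        have hyx : y ≠ x := fun h => hx' (h ▸ hy)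
        rw [Function.update_of_ne hyx]
      rw [h4]
      exact h3
  exact absurd (hmin _ (mem_filter.2 ⟨mem_univ _, hval'⟩)) (not_le.2 hlt)

end Pool.Agent.Helper29_CF.H36
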