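import Mathlib
import Pool.Agent.Helper29_CF.Stmt

/-! A minimal odd closed set gives an EO component. -/

namespace Pool.Agent.Helper29_CF.H36

open Finset

section

variable {V B : Type} [DecidableEq V] [DecidableEq B]

omit [DecidableEq B] in
theorem deg_pos_of_mem {s : B → Finset V} {F : Finset B} {x : V} {b : B} (hb : b ∈ F)
    (hx : x ∈ s b) : 1 ≤ deg s F x := by
  unfold deg
  exact card_pos.2 ⟨b, mem_filter.2 ⟨hb, hx⟩⟩

omit [DecidableEq B] in
theorem exists_of_deg_pos {s : B → Finset V} {F : Finset B} {x : V} (h : 1 ≤ deg s F x) :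
    ∃ b ∈ F, x ∈ s b := by
  unfold deg at h
  obtain ⟨b, hb⟩ := card_pos.1 h
  exact ⟨b, (mem_filter.1 hb).1, (mem_filter.1 hb).2⟩

omit [DecidableEq B] in
theorem deg_one_unique {s : B → Finset V} {F : Finset B} {x : V} (h : deg s F x = 1) {b b' : B}
    (hb : b ∈ F) (hx : x ∈ s b) (hb' : b' ∈ F) (hx' : x ∈ s b') : b = b' := by
  unfold deg at h
  obtain ⟨c, hc⟩ := card_eq_one.1 h
  have h1 : b ∈ F.filter (fun b => x ∈ s b) := mem_filter.2 ⟨hb, hx⟩
  have h2 : b' ∈ F.filter (fun b => x ∈ s b) := mem_filter.2 ⟨hb', hx'⟩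
  rw [hc, mem_singleton] at h1 h2
  rw [h1, h2]

omit [DecidableEq V] [DecidableEq B] in
theorem closed_subset {s : B → Finset V} {F : Finset B} {W : Finset V} (h : Closed s F W) {b : B}
    (hb : b ∈ F) {x : V} (hx : x ∈ s b) (hxW : x ∈ W) : s b ⊆ W := by
  rcases h b hb with h | h
  · exact h
  · exact absurd hxW (disjoint_left.1 h hx)

end

theorem colb : ColBStmt := by
  intro V B _ _ _ _ s F N hne hN hnod S0 hS0 hdeg0 heven0 hodd0
  classical
  -- minimal S
  let P : Finset V → Prop := fun S => S ⊆ N ∧ (∀ x ∈ S, deg s F x = 2 ∨ deg s F x = 4) ∧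
    (∀ b ∈ F, Even (S ∩ s b).card) ∧ Odd S.card
  have hex : ((univ : Finset (Finset V)).filter P).Nonempty :=
    ⟨S0, mem_filter.2 ⟨mem_univ _, hS0, hdeg0, heven0, hodd0⟩⟩
  obtain ⟨S, hS, hmin⟩ := exists_min_image _ Finset.card hex
  obtain ⟨-, hSN, hdeg, heven, hodd⟩ := mem_filter.1 hS
  have hmin' : ∀ S', P S' → S.card ≤ S'.card := fun S' h =>
    hmin S' (mem_filter.2 ⟨mem_univ _, h⟩)
  -- blocks meeting S
  have hblock : ∀ b ∈ F, (S ∩ s b).Nonempty → s b ⊆ N ∧ nodes s F (s b) = S ∩ s b ∧
      (nodes s F (s b)).card = 2 := by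
    intro b hb hbS
    obtain ⟨x, hx⟩ := hbS
    have hx' := mem_inter.1 hx
    have hsN : s b ⊆ N := closed_subset hN hb hx'.2 (hSN hx'.1)
    have h1 : S ∩ s b ⊆ nodes s F (s b) := by
      intro y hy
      have hy' := mem_inter.1 hy
      refine mem_filter.2 ⟨hy'.2, ?_⟩
      rcases hdeg y hy'.1 with h | h <;> omega
    have h2 := hnod b hb hsN
    have h3 := card_le_card h1
    have h4 : 0 < (S ∩ s b).card := card_pos.2 ⟨x, hx⟩
    obtain ⟨k, hk⟩ := heven b hb
    have h5 : (nodes s F (s b)).card = 2 := by omega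
    refine ⟨hsN, (eq_of_subset_of_card_le h1 (by omega)).symm, h5⟩
  let W : Finset V := S ∪ N.filter (fun x => deg s F x = 1 ∧ ∃ b ∈ F, x ∈ s b ∧ (S ∩ s b).Nonempty)
  have hWN : W ⊆ N := union_subset hSN (filter_subset _ _)
  have hWmem : ∀ x, x ∈ W → x ∈ S ∨ (x ∈ N ∧ deg s F x = 1 ∧
      ∃ b ∈ F, x ∈ s b ∧ (S ∩ s b).Nonempty) := by
    intro x hx
    rcases mem_union.1 hx with h | h
    · exact Or.inl h
    · exact Or.inr ⟨(mem_filter.1 h).1, (mem_filter.1 h).2⟩
  have hsub : ∀ b ∈ F, (S ∩ s b).Nonempty → s b ⊆ W := by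
    intro b hb hbS x hx
    obtain ⟨h1, h2, h3⟩ := hblock b hb hbS
    by_cases hxS : x ∈ S
    · exact mem_union_left _ hxS
    · refine mem_union_right _ (mem_filter.2 ⟨h1 hx, ?_, b, hb, hx, hbS⟩)
      have h4 : x ∉ nodes s F (s b) := by
        rw [h2]
        exact fun h => hxS (mem_inter.1 h).1
      have h5 := deg_pos_of_mem hb hx
      by_contra h6
      exact h4 (mem_filter.2 ⟨hx, by omega⟩)
  have hmeet : ∀ b ∈ F, ∀ x ∈ s b, x ∈ W → (S ∩ s b).Nonempty := by
    intro b hb x hx hxW
    rcases hWmem x hxW with h | ⟨_, h1, b', hb', hxb', h2⟩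
    · exact ⟨x, mem_inter.2 ⟨h, hx⟩⟩
    · rw [deg_one_unique h1 hb hx hb' hxb']
      exact h2
  refine ⟨W, hWN, ⟨?_, ?_, ?_⟩, ?_, ?_, ?_⟩
  · obtain ⟨x, hx⟩ := card_pos.1 hodd.pos
    exact ⟨x, mem_union_left _ hx⟩
  · intro b hb
    by_cases h : (S ∩ s b).Nonempty
    · exact Or.inl (hsub b hb h)
    · right
      rw [disjoint_left]
      intro x hx hxW
      exact h (hmeet b hb x hx hxW)
  · intro W' hW' hWne hWc
    have hS1 : ∀ b ∈ F, Even (W' ∩ S ∩ s b).card := by
      intro b hb
      rcases hWc b hb with h | h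
      · have : W' ∩ S ∩ s b = S ∩ s b := by
          ext x
          simp only [mem_inter]
          constructor
          · rintro ⟨⟨_, h1⟩, h2⟩
            exact ⟨h1, h2⟩
          · rintro ⟨h1, h2⟩
            exact ⟨⟨h h2, h1⟩, h2⟩
        rw [this]
        exact heven b hb
      · have : W' ∩ S ∩ s b = ∅ := by
          ext x
          simp only [mem_inter, notMem_empty, iff_false]
          rintro ⟨⟨h1, _⟩, h2⟩
          exact disjoint_left.1 h h2 h1
        rw [this]
        exact Even.zero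
    have hSplit : ∀ T : Finset V, ((S \ W') ∩ T).card + (W' ∩ S ∩ T).card = (S ∩ T).card := by
      intro T
      rw [← card_union_of_disjoint]
      · congr 1
        ext x
        simp only [mem_union, mem_inter, mem_sdiff]
        tauto
      · rw [disjoint_left]
        intro x hx hx'
        simp only [mem_inter, mem_sdiff] at hx hx'
        exact hx.1.2 hx'.1.1
    have hS2 : ∀ b ∈ F, Even ((S \ W') ∩ s b).card := by
      intro b hb
      have h1 := hSplit (s b)
      obtain ⟨k, hk⟩ := hS1 b hb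
      obtain ⟨l, hl⟩ := heven b hb
      exact ⟨l - k, by omega⟩
    have htot : (S \ W').card + (W' ∩ S).card = S.card := by
      have := hSplit univ
      simpa using this
    have hSS : S ⊆ W' := by
      by_cases hpar : Odd (W' ∩ S).card
      · have h1 : P (W' ∩ S) := ⟨fun x hx => hSN (mem_inter.1 hx).2,
          fun x hx => hdeg x (mem_inter.1 hx).2, hS1, hpar⟩
        have h2 := hmin' _ h1
        have h3 : (S \ W').card = 0 := by omega
        rw [card_eq_zero, sdiff_eq_empty_iff_subset] at h3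
        exact h3
      · exfalso
        have h1 : P (S \ W') := by
          refine ⟨fun x hx => hSN (mem_sdiff.1 hx).1, fun x hx => hdeg x (mem_sdiff.1 hx).1,
            hS2, ?_⟩
          rw [Nat.not_odd_iff_even] at hpar
          obtain ⟨k, hk⟩ := hpar
          obtain ⟨l, hl⟩ := hodd
          exact ⟨l - k, by omega⟩
        have h2 := hmin' _ h1
        have h3 : (W' ∩ S).card = 0 := by omega
        rw [card_eq_zero] at h3
        obtain ⟨x, hx⟩ := hWne
        rcases hWmem x (hW' hx) with h | ⟨_, _, b, hb, hxb, y, hy⟩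
        · have : x ∈ W' ∩ S := mem_inter.2 ⟨hx, h⟩
          rw [h3] at this
          exact absurd this (notMem_empty _)
        · have hy' := mem_inter.1 hy
          have : y ∈ W' ∩ S := mem_inter.2 ⟨closed_subset hWc hb hxb hx hy'.2, hy'.1⟩
          rw [h3] at this
          exact absurd this (notMem_empty _)
    apply Subset.antisymm hW'
    intro x hx
    rcases hWmem x hx with h | ⟨_, _, b, hb, hxb, y, hy⟩
    · exact hSS h
    · have hy' := mem_inter.1 hy
      exact closed_subset hWc hb hy'.2 (hSS hy'.1) hxb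
  · intro x hx
    rcases hWmem x hx with h | ⟨_, h, _⟩
    · rcases hdeg x h with h | h
      · exact Or.inr (Or.inl h)
      · exact Or.inr (Or.inr h)
    · exact Or.inl h
  · intro b hb hbW
    obtain ⟨x, hx⟩ := hne b hb
    exact (hblock b hb (hmeet b hb x hx (hbW hx))).2.2
  · have : nodes s F W = S := by
      ext x
      constructor
      · intro hx
        have hx' := mem_filter.1 hx
        rcases hWmem x hx'.1 with h | ⟨_, h, _⟩
        · exact h
        · omega
      · intro hx
        refine mem_filter.2 ⟨mem_union_left _ hx, ?_⟩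
        rcases hdeg x hx with h | h <;> omega
    rw [this]
    exact hodd

end Pool.Agent.Helper29_CF.H36
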