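import Mathlib
import Pool.Agent.Helper29_CF.Stmt

/-! Fredholm alternative over the field with two elements, in set language. -/

namespace Pool.Agent.Helper29_CF.H36

open Finset

/-- over `ZMod 2` an element is `0` or `1` -/
theorem z2_cases (a : ZMod 2) : a = 0 ∨ a = 1 := by
  revert a; decide

theorem z2_ne_zero {a : ZMod 2} (h : a ≠ 0) : a = 1 := (z2_cases a).resolve_left h

theorem even_iff_z2 (n : ℕ) : Even n ↔ (n : ZMod 2) = 0 := by
  rw [even_iff_two_dvd, ZMod.natCast_eq_zero_iff]

theorem odd_iff_z2 (n : ℕ) : Odd n ↔ (n : ZMod 2) = 1 := by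
  constructor
  · intro h
    exact z2_ne_zero (fun h0 => (Nat.not_even_iff_odd.2 h) ((even_iff_z2 n).2 h0))
  · intro h
    rw [← Nat.not_even_iff_odd, even_iff_z2, h]
    decide

theorem fred : FredStmt := by
  intro V B _ _ _ _ I N t hS
  classical
  let L : (B → ZMod 2) →ₗ[ZMod 2] (V → ZMod 2) :=
    { toFun := fun c x => if x ∈ N then ∑ b ∈ univ.filter (fun b => x ∈ I b), c b else 0
      map_add' := by
        intro c d
        funext x
        by_cases hx : x ∈ N
        · simp [hx, Finset.sum_add_distrib]
        · simp [hx]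
      map_smul' := by
        intro r c
        funext x
        by_cases hx : x ∈ N
        · simp [hx, Finset.mul_sum]
        · simp [hx] }
  by_cases h : (fun x => if x ∈ N then t x else 0) ∈ LinearMap.range L
  · obtain ⟨c, hc⟩ := h
    refine ⟨c, fun x hx => ?_⟩
    have := congrFun hc x
    simpa [L, hx] using this
  · exfalso
    obtain ⟨f, hf1, hf2⟩ := Submodule.exists_le_ker_of_notMem h
    have hfs : ∀ v : V → ZMod 2, f v = ∑ x, v x * f (Pi.single x 1) := by
      intro v
      conv_lhs => rw [pi_eq_sum_univ' v]
      rw [map_sum]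
      refine Finset.sum_congr rfl fun x _ => ?_
      rw [map_smul, smul_eq_mul]
    let S : Finset V := N.filter (fun x => f (Pi.single x 1) = 1)
    have hSs : S ⊆ N := Finset.filter_subset _ _
    have hsum : ∀ g : V → ZMod 2,
        ∑ x ∈ S, g x = ∑ x ∈ N, g x * f (Pi.single x 1) := by
      intro g
      rw [Finset.sum_filter]
      refine Finset.sum_congr rfl fun x _ => ?_
      rcases z2_cases (f (Pi.single x 1)) with h0 | h0
      · rw [h0]; simp
      · rw [h0]; simp
    have h1 : ∀ b, Even (S ∩ I b).card := by
      intro b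
      rw [even_iff_z2]
      have hb : f (L (Pi.single b 1)) = 0 := hf2 ⟨_, rfl⟩
      rw [hfs] at hb
      have : ((S ∩ I b).card : ZMod 2) = ∑ x ∈ S, (if x ∈ I b then (1 : ZMod 2) else 0) := by
        rw [Finset.sum_ite_mem]
        simp
      rw [this, hsum]
      refine Eq.trans ?_ hb
      rw [← Finset.sum_subset (Finset.subset_univ N)]
      · refine Finset.sum_congr rfl fun x hx => ?_
        congr 1
        simp only [L, LinearMap.coe_mk, AddHom.coe_mk, if_pos hx]
        rw [Finset.sum_filter]
        rw [Finset.sum_eq_single b]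
        · simp
        · intro b' _ hb'
          simp [hb']
        · intro hb'
          exact absurd (Finset.mem_univ b) hb'
      · intro x _ hx
        simp [L, hx]
    have h2 := hS S hSs h1
    apply hf1
    rw [hfs]
    refine Eq.trans ?_ ((hsum t).symm.trans h2)
    rw [← Finset.sum_subset (Finset.subset_univ N)]
    · refine Finset.sum_congr rfl fun x hx => ?_
      simp [hx]
    · intro x _ hx
      simp [hx]

end Pool.Agent.Helper29_CF.H36
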