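import Mathlib
import Pool.Agent.Helper29_CF.Stmt
import Pool.Agent.Helper36_CF.Fred
import Pool.Agent.Helper36_CF.ColA
import Pool.Agent.Helper36_CF.ColB

/-! Colouring of the part without EO components, and prescribed parities on an EO component. -/

namespace Pool.Agent.Helper29_CF.H36

open Finset

section

variable {V B : Type} [DecidableEq V] [DecidableEq B]

omit [DecidableEq B] in
theorem cdeg_eq (s : B → Finset V) (C : Finset B) (c : B → Bool) (κ : Bool) (x : V) :
    cdeg s C c κ x = ((C.filter (fun b => x ∈ s b)).filter (fun b => c b = κ)).card := by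
  unfold cdeg
  rw [filter_filter]

omit [DecidableEq B] in
theorem cdeg_add (s : B → Finset V) (C : Finset B) (c : B → Bool) (x : V) :
    cdeg s C c true x + cdeg s C c false x = deg s C x := by
  rw [cdeg_eq, cdeg_eq]
  unfold deg
  rw [← card_filter_add_card_filter_not (s := C.filter (fun b => x ∈ s b)) (fun b => c b = true)]
  congr 2
  apply filter_congr
  intro b _
  simp

omit [DecidableEq B] in
theorem cnt_cast (A : Finset B) (c' : B → ZMod 2) :
    (((A.filter (fun b => decide (c' b = 1) = true)).card : ℕ) : ZMod 2) = ∑ b ∈ A, c' b := by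
  rw [card_filter]
  push_cast
  refine sum_congr rfl fun b _ => ?_
  rcases z2_cases (c' b) with h | h
  · rw [h]; simp
  · rw [h]; simp

end

theorem colProof (hF : FredStmt) (hA : ColAStmt') (hB : ColBStmt) : ColStmt := by
  intro V B _ _ _ _ s F N hne hN hnod hno
  classical
  rcases isEmpty_or_nonempty B with hBe | hBne
  · refine ⟨fun _ => true, fun x _ h1 _ => ?_⟩
    obtain ⟨b, _⟩ := exists_of_deg_pos h1
    exact (hBe.false b).elim
  set D := N.filter (fun x => deg s F x = 2 ∨ deg s F x = 3 ∨ deg s F x = 4) with hDdef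
  have hD2 : ∀ b ∈ F, (s b ∩ D).card ≤ 2 := by
    intro b hb
    rcases hN b hb with h | h
    · refine le_trans (card_le_card ?_) (hnod b hb h)
      intro y hy
      have hy' := mem_inter.1 hy
      have h3 := (mem_filter.1 hy'.2).2
      exact mem_filter.2 ⟨hy'.1, by omega⟩
    · have : s b ∩ D = ∅ := by
        ext y
        simp only [mem_inter, notMem_empty, iff_false]
        rintro ⟨h1, h2⟩
        exact disjoint_left.1 h h1 (mem_filter.1 h2).1
      rw [this]
      simp
  obtain ⟨φ, hφ, hφS⟩ := hA s F N hD2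
  let I : B → Finset V := fun b => if b ∈ F then
    D.filter (fun x => x ∈ s b ∧ ¬ (deg s F x = 3 ∧ φ x = b)) else ∅
  have hI : ∀ b ∈ F, ∀ S ⊆ D, S ∩ I b =
      S.filter (fun x => x ∈ s b ∧ ¬ (deg s F x = 3 ∧ φ x = b)) := by
    intro b hb S hS
    ext y
    simp only [I, if_pos hb, mem_inter, mem_filter]
    constructor
    · rintro ⟨h1, _, h2⟩
      exact ⟨h1, h2⟩
    · rintro ⟨h1, h2⟩
      exact ⟨h1, hS h1, h2⟩
  have hfred : ∀ S ⊆ D, (∀ b, Even (S ∩ I b).card) → ∑ x ∈ S, (1 : ZMod 2) = 0 := by
    intro S hS he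
    have h3 : ∀ x ∈ S, deg s F x ≠ 3 := by
      apply hφS S hS
      intro b hb
      rw [← hI b hb S hS]
      exact he b
    have hSN : S ⊆ N := fun x hx => (mem_filter.1 (hS hx)).1
    have hdeg : ∀ x ∈ S, deg s F x = 2 ∨ deg s F x = 4 := by
      intro x hx
      have h4 := (mem_filter.1 (hS hx)).2
      have h5 := h3 x hx
      omega
    have heven : ∀ b ∈ F, Even (S ∩ s b).card := by
      intro b hb
      have h4 := he b
      rw [hI b hb S hS] at h4
      have h5 : S ∩ s b = S.filter (fun x => x ∈ s b ∧ ¬ (deg s F x = 3 ∧ φ x = b)) := by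
        ext y
        simp only [mem_inter, mem_filter]
        constructor
        · rintro ⟨h1, h2⟩
          exact ⟨h1, h2, fun h => h3 y h1 h.1⟩
        · rintro ⟨h1, h2, _⟩
          exact ⟨h1, h2⟩
      rw [h5]
      exact h4
    have hnotodd : ¬ Odd S.card := by
      intro ho
      obtain ⟨W, hW, hEO⟩ := hB s F N hne hN hnod S hSN hdeg heven ho
      exact hno W hW hEO
    rw [Nat.not_odd_iff_even, even_iff_z2] at hnotodd
    simpa using hnotodd
  obtain ⟨c', hc'⟩ := hF I D (fun _ => 1) hfred
  let c : B → Bool := fun b => decide (c' b = 1)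
  refine ⟨c, ?_⟩
  intro x hx h1 h4
  have hadd := cdeg_add s F c x
  have hcast : ((cdeg s F c true x : ℕ) : ZMod 2)
      = ∑ b ∈ F.filter (fun b => x ∈ s b), c' b := by
    rw [cdeg_eq]
    exact cnt_cast _ c'
  -- incidences at a point
  have hinc : ∀ b, x ∈ I b → b ∈ F := by
    intro b hb
    by_contra h
    simp [I, h] at hb
  by_cases hd1 : deg s F x = 1
  · rcases Nat.eq_zero_or_pos (cdeg s F c true x) with h | h
    · exact ⟨false, by omega⟩
    · exact ⟨true, by omega⟩
  have hxD : x ∈ D := mem_filter.2 ⟨hx, by omega⟩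
  have hx' := hc' x hxD
  by_cases hd3 : deg s F x = 3
  · obtain ⟨hφF, hφx⟩ := hφ x hx hd3
    have hset : univ.filter (fun b => x ∈ I b) = (F.filter (fun b => x ∈ s b)).erase (φ x) := by
      ext b
      simp only [mem_filter, mem_univ, true_and, mem_erase]
      constructor
      · intro hb
        have hbF := hinc b hb
        simp only [I, if_pos hbF, mem_filter] at hb
        exact ⟨fun h => hb.2.2 ⟨hd3, h.symm⟩, hbF, hb.2.1⟩
      · rintro ⟨h5, h6, h7⟩
        simp only [I, if_pos h6, mem_filter]
        exact ⟨hxD, h7, fun h => h5 h.2.symm⟩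
    rw [hset] at hx'
    have hmem : φ x ∈ F.filter (fun b => x ∈ s b) := mem_filter.2 ⟨hφF, hφx⟩
    -- the number of true blocks among the two non-free ones
    set A := (F.filter (fun b => x ∈ s b)).erase (φ x) with hA'
    have hAcard : A.card = 2 := by
      rw [hA', card_erase_of_mem hmem]
      have : (F.filter (fun b => x ∈ s b)).card = 3 := hd3
      omega
    have hodd : Odd (A.filter (fun b => decide (c' b = 1) = true)).card := by
      rw [odd_iff_z2, cnt_cast, hx']
    have hle : (A.filter (fun b => decide (c' b = 1) = true)).card ≤ 2 := by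
      exact le_trans (card_filter_le _ _) (le_of_eq hAcard)
    have hone : (A.filter (fun b => decide (c' b = 1) = true)).card = 1 := by
      obtain ⟨k, hk⟩ := hodd
      omega
    have hins : F.filter (fun b => x ∈ s b) = insert (φ x) A := (insert_erase hmem).symm
    have hnot : φ x ∉ A := notMem_erase _ _
    have hct : cdeg s F c true x = 1 ∨ cdeg s F c true x = 2 := by
      rw [cdeg_eq, hins, filter_insert]
      split_ifs with h
      · rw [card_insert_of_notMem (fun h' => hnot (mem_filter.1 h').1)]
        right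
        have : (A.filter (fun b => c b = true)).card = 1 := hone
        omega
      · left
        exact hone
    rcases hct with h | h
    · exact ⟨true, h⟩
    · exact ⟨false, by omega⟩
  · have hset : univ.filter (fun b => x ∈ I b) = F.filter (fun b => x ∈ s b) := by
      ext b
      simp only [mem_filter, mem_univ, true_and]
      constructor
      · intro hb
        have hbF := hinc b hb
        simp only [I, if_pos hbF, mem_filter] at hb
        exact ⟨hbF, hb.2.1⟩
      · rintro ⟨h6, h7⟩
        simp only [I, if_pos h6, mem_filter]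
        exact ⟨hxD, h7, fun h => hd3 h.1⟩
    rw [hset, ← hcast, ← odd_iff_z2] at hx'
    obtain ⟨k, hk⟩ := hx'
    by_cases hk0 : k = 0
    · exact ⟨true, by omega⟩
    · exact ⟨false, by omega⟩

theorem col : ColStmt := colProof fred cola colb

theorem tjProof (hF : FredStmt) : TJStmt := by
  intro V B _ _ _ _ s F Q hne hEO t ht f hf hfQ κ
  classical
  obtain ⟨⟨hQne, hQc, hQmin⟩, hdeg, hnod, hodd⟩ := hEO
  let I : B → Finset V := fun b => if b ∈ F ∧ s b ⊆ Q then nodes s F (s b) else ∅
  have hnodeseven : ∀ x ∈ nodes s F Q, deg s F x = 2 ∨ deg s F x = 4 := by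
    intro x hx
    have h1 := mem_filter.1 hx
    have h2 := hdeg x h1.1
    omega
  have hfred : ∀ S ⊆ nodes s F Q, (∀ b, Even (S ∩ I b).card) → ∑ x ∈ S, t x = 0 := by
    intro S hS he
    have hSQ : S ⊆ Q := fun x hx => (mem_filter.1 (hS hx)).1
    rcases S.eq_empty_or_nonempty with h0 | hSne
    · rw [h0]; simp
    let W' : Finset V := S ∪ Q.filter (fun x => deg s F x = 1 ∧ ∃ b ∈ F, x ∈ s b ∧
      (S ∩ s b).Nonempty)
    have hWmem : ∀ x, x ∈ W' → x ∈ S ∨ (x ∈ Q ∧ deg s F x = 1 ∧
        ∃ b ∈ F, x ∈ s b ∧ (S ∩ s b).Nonempty) := by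
      intro x hx
      rcases mem_union.1 hx with h | h
      · exact Or.inl h
      · exact Or.inr ⟨(mem_filter.1 h).1, (mem_filter.1 h).2⟩
    have hmeet : ∀ b ∈ F, ∀ x ∈ s b, x ∈ W' → (S ∩ s b).Nonempty := by
      intro b hb x hx hxW
      rcases hWmem x hxW with h | ⟨_, h1, b', hb', hxb', h2⟩
      · exact ⟨x, mem_inter.2 ⟨h, hx⟩⟩
      · rw [deg_one_unique h1 hb hx hb' hxb']
        exact h2
    have hsub : ∀ b ∈ F, (S ∩ s b).Nonempty → s b ⊆ W' := by
      intro b hb hbS x hx
      obtain ⟨y, hy⟩ := hbS
      have hy' := mem_inter.1 hy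
      have hbQ : s b ⊆ Q := closed_subset hQc hb hy'.2 (hSQ hy'.1)
      have h1 := he b
      have h2 : S ∩ I b = S ∩ s b := by
        ext z
        simp only [I, if_pos (And.intro hb hbQ), mem_inter, nodes, mem_filter]
        constructor
        · rintro ⟨h3, h4, _⟩
          exact ⟨h3, h4⟩
        · rintro ⟨h3, h4⟩
          exact ⟨h3, h4, (mem_filter.1 (hS h3)).2⟩
      have h3 : S ∩ s b ⊆ nodes s F (s b) := by
        intro z hz
        have hz' := mem_inter.1 hz
        exact mem_filter.2 ⟨hz'.2, (mem_filter.1 (hS hz'.1)).2⟩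
      have h4 := hnod b hb hbQ
      have h5 := card_le_card h3
      have h6 : 0 < (S ∩ s b).card := card_pos.2 ⟨y, hy⟩
      rw [h2] at h1
      obtain ⟨k, hk⟩ := h1
      have h7 : S ∩ s b = nodes s F (s b) := eq_of_subset_of_card_le h3 (by omega)
      by_cases hxS : x ∈ S
      · exact mem_union_left _ hxS
      · refine mem_union_right _ (mem_filter.2 ⟨hbQ hx, ?_, b, hb, hx, ⟨y, hy⟩⟩)
        have h8 := deg_pos_of_mem hb hx
        by_contra h9
        have h10 : x ∈ nodes s F (s b) := mem_filter.2 ⟨hx, by omega⟩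
        rw [← h7] at h10
        exact hxS (mem_inter.1 h10).1
    have hWQ : W' = Q := by
      apply hQmin
      · exact union_subset hSQ (filter_subset _ _)
      · obtain ⟨x, hx⟩ := hSne
        exact ⟨x, mem_union_left _ hx⟩
      · intro b hb
        by_cases h : (S ∩ s b).Nonempty
        · exact Or.inl (hsub b hb h)
        · right
          rw [disjoint_left]
          intro x hx hxW
          exact h (hmeet b hb x hx hxW)
    have hSall : S = nodes s F Q := by
      apply Subset.antisymm hS
      intro x hx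
      have hx' := mem_filter.1 hx
      have hxW : x ∈ W' := by
        rw [hWQ]
        exact hx'.1
      rcases hWmem x hxW with h | ⟨_, h, _⟩
      · exact h
      · omega
    rw [hSall]
    exact ht
  obtain ⟨c', hc'⟩ := hF I (nodes s F Q) t hfred
  let c : B → Bool := fun b => decide (c' b = 1)
  have hmain : ∀ x ∈ nodes s F Q, ((cdeg s F c true x : ℕ) : ZMod 2) = t x := by
    intro x hx
    have hx1 := mem_filter.1 hx
    have hset : univ.filter (fun b => x ∈ I b) = F.filter (fun b => x ∈ s b) := by
      ext b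
      simp only [mem_filter, mem_univ, true_and]
      constructor
      · intro hb
        by_cases h : b ∈ F ∧ s b ⊆ Q
        · simp only [I, if_pos h, nodes, mem_filter] at hb
          exact ⟨h.1, hb.1⟩
        · simp [I, h] at hb
      · rintro ⟨h1, h2⟩
        have h3 : s b ⊆ Q := closed_subset hQc h1 h2 hx1.1
        simp only [I, if_pos (And.intro h1 h3), nodes, mem_filter]
        exact ⟨h2, hx1.2⟩
    have h1 := hc' x hx
    rw [hset] at h1
    rw [← h1, cdeg_eq]
    exact cnt_cast _ c'
  by_cases hcf : c f = κ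
  · exact ⟨c, hcf, hmain⟩
  · refine ⟨fun b => !c b, ?_, ?_⟩
    · cases h1 : c f <;> cases h2 : κ <;> simp_all
    · intro x hx
      have h1 : cdeg s F (fun b => !c b) true x = cdeg s F c false x := by
        rw [cdeg_eq, cdeg_eq]
        congr 1
        apply filter_congr
        intro b _
        simp
      have h2 := cdeg_add s F c x
      rw [h1, ← hmain x hx]
      have h3 : ((cdeg s F c true x : ℕ) : ZMod 2) + ((cdeg s F c false x : ℕ) : ZMod 2) = 0 := by
        rw [← Nat.cast_add, h2, ← even_iff_z2]
        rcases hnodeseven x hx with h | h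
        · rw [h]; decide
        · rw [h]; decide
      have h4 : ∀ a b : ZMod 2, a + b = 0 → b = a := by decide
      exact h4 _ _ h3

theorem tj : TJStmt := tjProof fred

end Pool.Agent.Helper29_CF.H36
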